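import Pool.Agent.helper90.IV.All

/-!
MP_26dbae_co: for every rational `r` with `1 < r ≤ 8/7` there is a bipartite graph `H` with `f_2(n, H) = Θ(n^r)`.

`H` is the `p`-th power of the linked 1-subdivision of a caterpillar: every edge of the caterpillar is
replaced by a path of length 2, one new root is joined to all hubs and another one to all other inner vertices.
Choosing the images of these two roots turns the graph of the pairs `(x, y)` (`(x, y)` is joined to `(x', y')` if
`χ x x' = χ y y'`) into a bipartite graph with two proper edge colourings, in which one has to find a rainbow copy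
of the power of the caterpillar.
-/

set_option autoImplicit false

namespace Pool.Agent.Results.MP_26dbae_co.IntervalExponents

open Pool.Agent.helper23.TH Pool.Agent.KS Pool.Agent.IV

/-- Every rational `r` with `1 < r ≤ 8/7` is the exponent of `f_2(n, H)` for some bipartite graph `H`. -/
theorem result : ∀ r : ℚ, 1 < r → r ≤ 8 / 7 →
    ∃ k : ℕ, ∃ H : SimpleGraph (Fin k), H.Colorable 2 ∧ Law H (r : ℝ) :=
  all_FIN

end Pool.Agent.Results.MP_26dbae_co.IntervalExponents
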