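import Pool.Agent.helper90.KS.All

/-!
MP_26dbae_co: `f_2(n, K_{s,t}^1) = Θ(n^{1 + 1/s})` for every `s ≥ 3` and all large `t`, where `K_{s,t}^1` is the
1-subdivision of `K_{s,t}` (every edge is replaced by a path of length 2). It is the `t`-th power of the
spider with `s` legs of length 2, rooted at its `s` ends.

Lower bound: in an almost regular subgraph of the graph of the pairs `(x, y)` (`(x, y)` is joined to `(x', y')` if
`χ x x' = χ y y'`) one counts pairs of vertices (centres) with many common light second neighbours. Pairs of
centres which share an entry are dealt with by a second double counting: either they are few, or there are `t`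
lines with many candidates for the centres and the same roots, and the subdivision is found greedily.
-/

set_option autoImplicit false

namespace Pool.Agent.Results.MP_26dbae_co.SubdivisionExponents

open Pool.Agent.helper23.TH Pool.Agent.KS

/-- For every `s ≥ 3` the 1-subdivisions of `K_{s,p}` are bipartite and have `f_2 = Θ(n^{1 + 1/s})` for all large
`p`; so there is a bipartite graph on some `Fin k` with this exponent. -/
theorem result : ∀ s : ℕ, 3 ≤ s →
    (∀ p : ℕ, ((spider s).pw p).Colorable 2) ∧
    (∃ p₀ : ℕ, ∀ p : ℕ, p₀ ≤ p → Law ((spider s).pw p) (1 + 1 / (s : ℝ))) ∧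
    ∃ k : ℕ, ∃ H : SimpleGraph (Fin k), H.Colorable 2 ∧ Law H (1 + 1 / (s : ℝ)) :=
  all_FIN

end Pool.Agent.Results.MP_26dbae_co.SubdivisionExponents
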